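import Pool.Agent.L5helper7.GM.Main

/-!
# The strong probable prime test for the norms `2^ℓ + 2^((ℓ+1)/2) + 1`
-/

set_option autoImplicit false

namespace Pool.Agent.L5helper7.GM

/-- `N` is odd and passes the strong (Miller-Rabin) test to the base `b` -/
def StrongProbablePrime (b N : ℕ) : Prop :=
  ∃ s d : ℕ, 1 ≤ s ∧ N = 2 ^ s * d + 1 ∧ Odd d ∧ (N ∣ b ^ d - 1 ∨ ∃ r < s, N ∣ b ^ (2 ^ r * d) + 1)

theorem two_pow {j : ℕ} (hl : (8 * j + 3).Prime) : 8 * j + 3 ∣ 2 ^ (4 * j + 1) + 1 := by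
  haveI : Fact (8 * j + 3).Prime := ⟨hl⟩
  have h20 : (2 : ZMod (8 * j + 3)) ≠ 0 := by
    intro h
    have h3 : ((2 : ℕ) : ZMod (8 * j + 3)) = 0 := by exact_mod_cast h
    rw [ZMod.natCast_eq_zero_iff] at h3
    have := Nat.le_of_dvd (by norm_num) h3
    omega
  have hns : ¬ IsSquare (2 : ZMod (8 * j + 3)) := by
    rw [ZMod.exists_sq_eq_two_iff (by omega)]
    omega
  have hdiv : (8 * j + 3) / 2 = 4 * j + 1 := by omega
  have h1 : (2 : ZMod (8 * j + 3)) ^ (4 * j + 1) ≠ 1 := by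
    intro h
    apply hns
    rw [ZMod.euler_criterion (8 * j + 3) h20, hdiv]
    exact h
  have h2 := ZMod.pow_div_two_eq_neg_one_or_one (8 * j + 3) h20
  rw [hdiv] at h2
  have h3 : (2 : ZMod (8 * j + 3)) ^ (4 * j + 1) = -1 := h2.resolve_left h1
  rw [← ZMod.natCast_eq_zero_iff]
  push_cast
  rw [h3]
  ring

theorem spp {j : ℕ} (hl : (8 * j + 3).Prime) :
    StrongProbablePrime 2 (2 ^ (8 * j + 3) + 2 ^ (4 * j + 2) + 1) := by
  refine ⟨4 * j + 2, 2 ^ (4 * j + 1) + 1, by omega, ?_, ?_, Or.inr ⟨1, by omega, ?_⟩⟩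
  · have e : 2 ^ (8 * j + 3) = 2 ^ (4 * j + 2) * 2 ^ (4 * j + 1) := by
      rw [← pow_add]
      congr 1
      omega
    rw [e]
    ring
  · rw [pow_succ]
    exact ⟨2 ^ (4 * j), by ring⟩
  · obtain ⟨m, hm⟩ := two_pow hl
    have hmo : Odd m := by
      have h1 : Odd (2 ^ (4 * j + 1) + 1) := by
        rw [pow_succ]
        exact ⟨2 ^ (4 * j), by ring⟩
      rw [hm] at h1
      exact (Nat.odd_mul.1 h1).2
    have h1 : 2 ^ (8 * j + 3) + 2 ^ (4 * j + 2) + 1 ∣ 2 ^ (2 * (8 * j + 3)) + 1 := by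
      obtain ⟨K, hK⟩ : ∃ K, K = 2 ^ (4 * j) := ⟨_, rfl⟩
      have hK1 : 1 ≤ K := by rw [hK]; exact Nat.one_le_two_pow
      obtain ⟨K', rfl⟩ : ∃ K', K = K' + 1 := ⟨K - 1, by omega⟩
      have e1 : 2 ^ (8 * j + 3) = 8 * (K' + 1) ^ 2 := by
        rw [hK, ← pow_mul, pow_add]
        ring
      have e2 : 2 ^ (4 * j + 2) = 4 * (K' + 1) := by
        rw [hK, pow_add]
        ring
      have e3 : 2 ^ (2 * (8 * j + 3)) = 64 * (K' + 1) ^ 4 := by
        rw [hK, ← pow_mul]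
        have : (64 : ℕ) = 2 ^ 6 := by norm_num
        rw [this, ← pow_add]
        congr 1
        ring
      rw [e1, e2, e3]
      refine ⟨8 * K' ^ 2 + 12 * K' + 5, ?_⟩
      ring
    have h2 : 2 ^ (2 ^ 1 * (2 ^ (4 * j + 1) + 1)) = (2 ^ (2 * (8 * j + 3))) ^ m := by
      rw [hm, ← pow_mul]
      congr 1
      ring
    rw [h2]
    refine h1.trans ?_
    have h3 := Odd.nat_add_dvd_pow_add_pow (2 ^ (2 * (8 * j + 3))) 1 hmo
    rwa [one_pow] at h3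

/-- all the properties of the number which belongs to a good quadruple -/
theorem good_of {x y z w : ℕ} (h1 : (x + y).Prime) (h2 : (x + y) % 8 = 3) (h3 : 2 * (z + w) = x + y + 1) :
    StrongProbablePrime 2 (2 ^ (x + y) + 2 ^ (z + w) + 1) ∧
      ∀ q : ℕ, q.Prime → q ∣ 2 ^ (x + y) + 2 ^ (z + w) + 1 → 4 * (x + y) ∣ q - 1 := by
  obtain ⟨j, hj⟩ : ∃ j, x + y = 8 * j + 3 := ⟨(x + y) / 8, by omega⟩
  have hzw : z + w = 4 * j + 2 := by omega
  rw [hj, hzw]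
  rw [hj] at h1
  refine ⟨spp h1, fun q hq hd => ?_⟩
  have e : 2 ^ (8 * j + 3) + 2 ^ (4 * j + 2) + 1 = 2 ^ (8 * j + 3) + 2 ^ (4 * j + 1) + 2 ^ (4 * j + 1) + 1 := by
    rw [show 4 * j + 2 = 4 * j + 1 + 1 by ring, pow_succ 2 (4 * j + 1)]
    ring
  rw [e] at hd
  obtain ⟨h, -, hh⟩ := Pool.Agent.R330.AF.prime_factor h1 hq hd
  rw [hh, Nat.add_sub_cancel]
  exact ⟨h, by ring⟩

end Pool.Agent.L5helper7.GM
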