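import Pool.Agent.R330.AF.Fmain

/-!
# A positive proportion of odd `n` has many quadruples with strong probable primes
-/

set_option autoImplicit false

namespace Pool.Agent.L5helper7.GM

open Finset Filter
open Pool.Agent.R154.FS (So Se card_So card_Se)
open Pool.Agent.R330.AF

/-- the good quadruples of `n` -/
def Q (c : ℝ) (X n : ℕ) : Set (ℕ × ℕ × ℕ × ℕ) :=
  {p | n = p.1 ^ 2 + p.2.1 ^ 2 + p.2.2.1 ^ 2 + p.2.2.2 ^ 2 ∧
    (p.1 + p.2.1).Prime ∧ (p.1 + p.2.1) % 8 = 3 ∧ 2 * (p.2.2.1 + p.2.2.2) = p.1 + p.2.1 + 1 ∧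
    ∀ q : ℕ, q.Prime → q ∣ 2 ^ (p.1 + p.2.1) + 2 ^ (p.2.2.1 + p.2.2.2) + 1 →
      c * √(X : ℝ) * Real.log X < q}

theorem Q_finite (c : ℝ) (X n : ℕ) : (Q c X n).Finite := by
  apply Set.Finite.subset (s := (((Finset.range (n + 1)) ×ˢ ((Finset.range (n + 1)) ×ˢ
    ((Finset.range (n + 1)) ×ˢ (Finset.range (n + 1)))) : Finset (ℕ × ℕ × ℕ × ℕ)) :
    Set (ℕ × ℕ × ℕ × ℕ)))
  · exact Finset.finite_toSet _
  · rintro ⟨a, b, c', d⟩ ⟨h, -⟩
    simp only at h
    simp only [mem_coe, mem_product, mem_range]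
    have k1 : a ≤ a ^ 2 := Nat.le_self_pow (by norm_num) a
    have k2 : b ≤ b ^ 2 := Nat.le_self_pow (by norm_num) b
    have k3 : c' ≤ c' ^ 2 := Nat.le_self_pow (by norm_num) c'
    have k4 : d ≤ d ^ 2 := Nat.le_self_pow (by norm_num) d
    omega

theorem fiber_le {H z y X : ℕ} {c : ℝ}
    (hq : ∀ j : ℕ, 8 * j + 3 ∈ LL H z y → ∀ q : ℕ, q.Prime →
      q ∣ 2 ^ (8 * j + 3) + 2 ^ (4 * j + 1) + 2 ^ (4 * j + 1) + 1 → c * √(X : ℝ) * Real.log X < q)
    (v : ℕ) :
    ((T2 (LL H z y) (z / 2)).filter (fun p => V2 p = v)).card ≤ (Q c X (v / 2)).ncard := by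
  rw [← Set.ncard_coe_finset]
  apply Set.ncard_le_ncard_of_injOn Φ (ht := Q_finite c X (v / 2))
  · intro p hp
    rw [mem_coe, mem_filter] at hp
    obtain ⟨hpT, hv⟩ := hp
    have hl : p.1 ∈ LL H z y := by
      unfold T2 at hpT
      exact (mem_product.1 hpT).1
    obtain ⟨j, a, s, b, t, rfl, h1, h2⟩ := elem hpT
    rw [Φ_eq h1 h2]
    rw [V2_eq h1 h2] at hv
    unfold Q
    simp only [Set.mem_ofPred_eq]
    have hlm := hl
    rw [LL, mem_filter] at hlm
    refine ⟨by omega, ?_, by omega, by omega, fun q hqp hqd => hq j hl q hqp ?_⟩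
    · have e0 : a + 2 * s + 1 + a = 8 * j + 3 := by omega
      rw [e0]
      exact hlm.2.1
    have e1 : a + 2 * s + 1 + a = 8 * j + 3 := by omega
    have e2 : b + 2 * t + b = 4 * j + 1 + 1 := by omega
    rw [e1, e2] at hqd
    have e3 : 2 ^ (8 * j + 3) + 2 ^ (4 * j + 1 + 1) + 1 =
        2 ^ (8 * j + 3) + 2 ^ (4 * j + 1) + 2 ^ (4 * j + 1) + 1 := by
      rw [pow_succ 2 (4 * j + 1)]; ring
    rw [e3] at hqd
    exact hqd
  · intro p hp p' hp' he
    rw [mem_coe, mem_filter] at hp hp'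
    exact Φ_inj (mem_coe.2 hp.1) (mem_coe.2 hp'.1) he

theorem main2 : ∃ c : ℝ, 0 < c ∧ ∃ X₀ : ℕ, ∀ X : ℕ, X₀ ≤ X →
    c * X ≤ (Set.ncard {n : ℕ | n ≤ X ∧ Odd n ∧
      c * √(X : ℝ) / Real.log X ≤ ((Q c X n).ncard : ℝ)} : ℝ) := by
  obtain ⟨c1, η, δ, hc1, hη, hη1, hδ, hL⟩ := LL_lower
  obtain ⟨C, hC, hE⟩ := E2_bound
  obtain ⟨Y0, hY0⟩ := eventually_atTop.1 (hL.and hE)
  obtain ⟨Y1, hY1⟩ := exists_nat_ge (16 / η)
  set c : ℝ := min (2 * (δ * η) / 3) (min (c1 * η ^ 2 / (9216 * C)) (c1 * η ^ 2 / 4608)) with hcdef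
  have hc0 : 0 < c := by positivity
  have hcle1 : c ≤ 2 * (δ * η) / 3 := min_le_left _ _
  have hcle2 : c ≤ c1 * η ^ 2 / (9216 * C) := (min_le_right _ _).trans (min_le_left _ _)
  have hcle3 : c ≤ c1 * η ^ 2 / 4608 := (min_le_right _ _).trans (min_le_right _ _)
  refine ⟨c, hc0, max 10000 ((Y0 + Y1 + 1) ^ 2), fun X hX => ?_⟩
  have hX1 : 10000 ≤ X := (le_max_left _ _).trans hX
  have hX2 : (Y0 + Y1 + 1) ^ 2 ≤ X := (le_max_right _ _).trans hX
  have hXR : (10000 : ℝ) ≤ X := by exact_mod_cast hX1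
  have hX0 : (0 : ℝ) < X := by linarith
  set y := Nat.sqrt X with hy
  have hysq : y ^ 2 ≤ X := Nat.sqrt_le' X
  have hysq2 : X < (y + 1) ^ 2 := Nat.lt_succ_sqrt' X
  have hyY : Y0 + Y1 + 1 ≤ y := Nat.le_sqrt'.2 hX2
  have hsX : √(X : ℝ) * √(X : ℝ) = X := Real.mul_self_sqrt hX0.le
  have hsX0 : 0 < √(X : ℝ) := Real.sqrt_pos.2 hX0
  have hsX100 : (100 : ℝ) ≤ √(X : ℝ) := by
    apply Real.le_sqrt_of_sq_le; linarith
  have hyR : √(X : ℝ) / 2 ≤ y := by
    have h1 : √(X : ℝ) ≤ (y : ℝ) + 1 := by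
      rw [Real.sqrt_le_left (by positivity)]
      have : (X : ℝ) < ((y : ℝ) + 1) ^ 2 := by exact_mod_cast hysq2
      exact this.le
    linarith
  have hy50 : (50 : ℝ) ≤ y := by linarith
  have hy10 : 10 ≤ y := by
    have : 50 ≤ y := by exact_mod_cast hy50
    omega
  have hy0 : (0 : ℝ) < y := by linarith
  have hlogy : 0 < Real.log y := Real.log_pos (by linarith)
  have hlogX : 0 < Real.log X := Real.log_pos (by linarith)
  have hysqR : (y : ℝ) ^ 2 ≤ X := by exact_mod_cast hysq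
  have hyleX : (y : ℝ) ≤ X := by nlinarith
  have hlogle : Real.log y ≤ Real.log X := Real.log_le_log hy0 hyleX
  have hlogge : Real.log X / 3 ≤ Real.log y := by
    have e1 : Real.log (√(X : ℝ) / 2) ≤ Real.log y := Real.log_le_log (by positivity) hyR
    have e2 : Real.log (√(X : ℝ) / 2) = Real.log X / 2 - Real.log 2 := by
      rw [Real.log_div (by positivity) (by norm_num), Real.log_sqrt hX0.le]
    have e3 : 6 * Real.log 2 ≤ Real.log X := by
      have : 6 * Real.log 2 = Real.log (2 ^ 6) := by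
        rw [Real.log_pow]; norm_num
      rw [this]
      apply Real.log_le_log (by norm_num)
      linarith
    linarith
  obtain ⟨hLy, hEy⟩ := hY0 y (by omega)
  set H := ⌊δ * Real.log y⌋₊ with hH
  set z := ⌊η * (y : ℝ)⌋₊ with hz
  set L := LL H z y with hLdef
  set M := z / 2 with hM
  have hzle : (z : ℝ) ≤ η * y := Nat.floor_le (by positivity)
  have hzy : z ≤ y := by
    have h1 : (z : ℝ) ≤ y := hzle.trans (by nlinarith)
    exact_mod_cast h1
  have hηy : 16 ≤ η * y := by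
    have h1 : (Y1 : ℝ) ≤ y := by exact_mod_cast (by omega : Y1 ≤ y)
    have h2 : 16 / η ≤ y := hY1.trans h1
    rw [div_le_iff₀ hη] at h2
    linarith
  have hMge : η * y / 4 ≤ M := by
    have h1 : η * (y : ℝ) < z + 1 := Nat.lt_floor_add_one _
    have h2 : (z : ℝ) ≤ 2 * M + 1 := by
      have : z ≤ 2 * (z / 2) + 1 := by omega
      rw [hM]
      exact_mod_cast this
    linarith
  have hM4 : (4 : ℝ) ≤ M := by linarith
  have hM4' : 4 ≤ M := by exact_mod_cast hM4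
  have hMy : M ≤ y := by omega
  have hM0 : (0 : ℝ) < M := by linarith
  -- the cardinality of the parameter set
  have hTlow : (L.card : ℝ) * M ^ 2 / 6 ≤ ((T2 L M).card : ℝ) := by
    unfold T2
    rw [Finset.card_product, Finset.card_product]
    push_cast
    have h2 := card_So M
    have h3 := card_Se M (by omega)
    calc (L.card : ℝ) * M ^ 2 / 6 = L.card * (M / 2 * (M / 3)) := by ring
      _ ≤ (L.card : ℝ) * (((So M).card : ℝ) * ((Se M).card : ℝ)) := by gcongr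
  have hEu := hEy L M (fun l hl => by
    rw [hLdef, LL, mem_filter, mem_Ioc] at hl
    exact ⟨hl.2.1, hl.1.2, hl.2.2.1⟩) (by omega) hMy
  -- number of values
  have hI : (((T2 L M).image V2).card : ℝ) ≤ 3 * X := by
    have h1 : (T2 L M).image V2 ⊆ range (2 * X + 1) := by
      intro v hv
      rw [mem_image] at hv
      obtain ⟨p, hp, rfl⟩ := hv
      rw [mem_range]
      have := V2_le hy10 hzy hp
      omega
    have h2 := card_le_card h1
    rw [card_range] at h2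
    have h3 : (((T2 L M).image V2).card : ℝ) ≤ ((2 * X + 1 : ℕ) : ℝ) := by exact_mod_cast h2
    push_cast at h3
    linarith
  have hpal := paley (T2 L M) V2 (3 * X) (by positivity) hI
  set r : ℕ → ℝ := fun v => (((T2 L M).filter (fun p => V2 p = v)).card : ℝ) with hr
  set B := ((T2 L M).image V2).filter (fun v => ((T2 L M).card : ℝ) / (2 * (3 * X)) ≤ r v) with hB
  have hLpos : 0 < (L.card : ℝ) := lt_of_lt_of_le (by positivity) hLy
  -- lower bound for B
  have hBlow : c * X ≤ (B.card : ℝ) := by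
    have h1 : ((L.card : ℝ) * M ^ 2 / 12) ^ 2 ≤ (B.card : ℝ) *
        (C * (M : ℝ) ^ 2 * (L.card * (y / Real.log y))) := by
      calc ((L.card : ℝ) * M ^ 2 / 12) ^ 2 ≤ (((T2 L M).card : ℝ) / 2) ^ 2 := by
            apply pow_le_pow_left₀ (by positivity)
            linarith
        _ ≤ _ := hpal
        _ ≤ _ := mul_le_mul_of_nonneg_left hEu (by positivity)
    have h2 : (L.card : ℝ) * M ^ 2 / 144 ≤ (B.card : ℝ) * (C * (y / Real.log y)) := by
      have h3 : ((L.card : ℝ) * M ^ 2) * ((L.card : ℝ) * M ^ 2 / 144) ≤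
          ((L.card : ℝ) * M ^ 2) * ((B.card : ℝ) * (C * (y / Real.log y))) := by
        calc ((L.card : ℝ) * M ^ 2) * ((L.card : ℝ) * M ^ 2 / 144) =
            ((L.card : ℝ) * M ^ 2 / 12) ^ 2 := by ring
          _ ≤ _ := h1
          _ = _ := by ring
      exact le_of_mul_le_mul_left h3 (by positivity)
    have h4 : c1 * (y / Real.log y) * M ^ 2 / 144 ≤ (B.card : ℝ) * (C * (y / Real.log y)) := by
      refine le_trans ?_ h2
      gcongr
    have hyl : 0 < (y : ℝ) / Real.log y := by positivity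
    have h5 : c1 * M ^ 2 / 144 ≤ (B.card : ℝ) * C := by
      have : (y / Real.log y) * (c1 * M ^ 2 / 144) ≤ (y / Real.log y) * ((B.card : ℝ) * C) := by
        calc (y / Real.log y) * (c1 * M ^ 2 / 144) = c1 * (y / Real.log y) * M ^ 2 / 144 := by ring
          _ ≤ _ := h4
          _ = _ := by ring
      exact le_of_mul_le_mul_left this hyl
    have h6 : (η * y / 4) ^ 2 ≤ (M : ℝ) ^ 2 := pow_le_pow_left₀ (by positivity) hMge 2
    have h7 : (X : ℝ) / 4 ≤ (y : ℝ) ^ 2 := by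
      calc (X : ℝ) / 4 = (√(X : ℝ) / 2) ^ 2 := by rw [div_pow, Real.sq_sqrt hX0.le]; norm_num
        _ ≤ (y : ℝ) ^ 2 := pow_le_pow_left₀ (by positivity) hyR 2
    have h8 : η ^ 2 * X / 64 ≤ (M : ℝ) ^ 2 := by
      calc η ^ 2 * X / 64 = η ^ 2 / 16 * (X / 4) := by ring
        _ ≤ η ^ 2 / 16 * (y : ℝ) ^ 2 := by gcongr
        _ = (η * y / 4) ^ 2 := by ring
        _ ≤ _ := h6
    have h9 : c1 * (η ^ 2 * X / 64) / 144 ≤ (B.card : ℝ) * C := by
      refine le_trans ?_ h5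
      gcongr
    calc c * X ≤ c1 * η ^ 2 / (9216 * C) * X := mul_le_mul_of_nonneg_right hcle2 hX0.le
      _ = (c1 * (η ^ 2 * X / 64) / 144) / C := by
          field_simp
          norm_num
      _ ≤ (B.card : ℝ) := by
          rw [div_le_iff₀ hC]
          exact h9
  -- the threshold
  have hthr : c * √(X : ℝ) / Real.log X ≤ ((T2 L M).card : ℝ) / (2 * (3 * X)) := by
    have h6 : (η * y / 4) ^ 2 ≤ (M : ℝ) ^ 2 := pow_le_pow_left₀ (by positivity) hMge 2
    have h7 : (X : ℝ) / 4 ≤ (y : ℝ) ^ 2 := by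
      calc (X : ℝ) / 4 = (√(X : ℝ) / 2) ^ 2 := by rw [div_pow, Real.sq_sqrt hX0.le]; norm_num
        _ ≤ (y : ℝ) ^ 2 := pow_le_pow_left₀ (by positivity) hyR 2
    have h8 : η ^ 2 * X / 64 ≤ (M : ℝ) ^ 2 := by
      calc η ^ 2 * X / 64 = η ^ 2 / 16 * (X / 4) := by ring
        _ ≤ η ^ 2 / 16 * (y : ℝ) ^ 2 := by gcongr
        _ = (η * y / 4) ^ 2 := by ring
        _ ≤ _ := h6
    have h9 : √(X : ℝ) / 2 / Real.log X ≤ y / Real.log y :=
      div_le_div₀ hy0.le hyR hlogy hlogle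
    rw [le_div_iff₀ (by positivity)]
    calc c * √(X : ℝ) / Real.log X * (2 * (3 * X)) ≤
          (c1 * η ^ 2 / 4608) * √(X : ℝ) / Real.log X * (2 * (3 * X)) := by
          gcongr
      _ = c1 * (√(X : ℝ) / 2 / Real.log X) * (η ^ 2 * X / 64) / 6 := by
          field_simp
          norm_num
      _ ≤ c1 * (y / Real.log y) * (M : ℝ) ^ 2 / 6 := by gcongr
      _ ≤ (L.card : ℝ) * M ^ 2 / 6 := by gcongr
      _ ≤ _ := hTlow
  -- prime factors
  have hq : ∀ j : ℕ, 8 * j + 3 ∈ LL H z y → ∀ q : ℕ, q.Prime →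
      q ∣ 2 ^ (8 * j + 3) + 2 ^ (4 * j + 1) + 2 ^ (4 * j + 1) + 1 →
      c * √(X : ℝ) * Real.log X < q := by
    intro j hl q hqp hd
    rw [LL, mem_filter, mem_Ioc] at hl
    obtain ⟨⟨hlz, hly⟩, hlp, hlm, hlh⟩ := hl
    obtain ⟨h, hh1, hqh⟩ := prime_factor hlp hqp hd
    have hHh : H < h := by
      by_contra hcon
      push Not at hcon
      exact hlh h (mem_Icc.2 ⟨hh1, hcon⟩) (hqh ▸ hqp)
    have h1 : δ * Real.log y < h := by
      have h2 : δ * Real.log y < H + 1 := Nat.lt_floor_add_one _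
      have h3 : ((H + 1 : ℕ) : ℝ) ≤ h := by exact_mod_cast hHh
      push_cast at h3
      linarith
    have h2 : η * y < ((8 * j + 3 : ℕ) : ℝ) := by
      have h3 : η * y < z + 1 := Nat.lt_floor_add_one _
      have h4 : ((z + 1 : ℕ) : ℝ) ≤ ((8 * j + 3 : ℕ) : ℝ) := by exact_mod_cast hlz
      push_cast at h4 ⊢
      linarith
    have h3 : (q : ℝ) = 4 * h * ((8 * j + 3 : ℕ) : ℝ) + 1 := by
      rw [hqh]; push_cast; ring
    have h4 : (δ * Real.log y) * (η * y) ≤ h * ((8 * j + 3 : ℕ) : ℝ) :=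
      mul_le_mul h1.le h2.le (by positivity) (by positivity)
    have h5 : δ * (Real.log X / 3) * (η * (√(X : ℝ) / 2)) ≤ (δ * Real.log y) * (η * y) := by
      apply mul_le_mul
      · exact mul_le_mul_of_nonneg_left hlogge hδ.le
      · exact mul_le_mul_of_nonneg_left hyR hη.le
      · positivity
      · positivity
    calc c * √(X : ℝ) * Real.log X ≤ 2 * (δ * η) / 3 * √(X : ℝ) * Real.log X := by
          apply mul_le_mul_of_nonneg_right _ hlogX.le
          exact mul_le_mul_of_nonneg_right hcle1 hsX0.le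
      _ = 4 * (δ * (Real.log X / 3) * (η * (√(X : ℝ) / 2))) := by ring
      _ ≤ 4 * (h * ((8 * j + 3 : ℕ) : ℝ)) := by linarith
      _ < q := by rw [h3]; linarith
  -- conclusion
  have hfin : {n : ℕ | n ≤ X ∧ Odd n ∧
      c * √(X : ℝ) / Real.log X ≤ ((Q c X n).ncard : ℝ)}.Finite :=
    (Set.finite_Iic X).subset (fun n hn => hn.1)
  have hcard : B.card ≤ {n : ℕ | n ≤ X ∧ Odd n ∧
      c * √(X : ℝ) / Real.log X ≤ ((Q c X n).ncard : ℝ)}.ncard := by
    rw [← Set.ncard_coe_finset]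
    apply Set.ncard_le_ncard_of_injOn (fun v => v / 2) (ht := hfin)
    · intro v hv
      rw [mem_coe, hB, mem_filter, mem_image] at hv
      obtain ⟨⟨p, hp, hpv⟩, hrv⟩ := hv
      have hle := V2_le hy10 hzy hp
      obtain ⟨j, a, s, b, t, rfl, h1, h2⟩ := elem hp
      simp only [Set.mem_ofPred_eq]
      refine ⟨?_, ?_, ?_⟩
      · rw [← hpv]; omega
      · rw [← hpv, V2_eq h1 h2, Nat.mul_div_cancel_left _ (by norm_num)]
        exact odd_sum a s b t
      · refine hthr.trans (hrv.trans ?_)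
        simp only [hr]
        exact_mod_cast fiber_le hq v
    · intro v hv v' hv' he
      rw [mem_coe, hB, mem_filter, mem_image] at hv hv'
      obtain ⟨⟨p, hp, hpv⟩, -⟩ := hv
      obtain ⟨⟨p', hp', hpv'⟩, -⟩ := hv'
      obtain ⟨j, a, s, b, t, rfl, h1, h2⟩ := elem hp
      obtain ⟨j', a', s', b', t', rfl, h1', h2'⟩ := elem hp'
      rw [V2_eq h1 h2] at hpv
      rw [V2_eq h1' h2'] at hpv'
      simp only at he
      omega
  refine hBlow.trans ?_
  exact_mod_cast hcard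

end Pool.Agent.L5helper7.GM
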